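import Pool.Agent.K6.H46.LAP.Set

/-!
# The number of elements
-/

set_option autoImplicit false

namespace Pool.Agent.K6.H46.LAP

open Finset

variable {p : ℕ} [hpf : Fact p.Prime] {Q M Z : ℕ}

lemma card_window {lo hi : ℕ} (h : hi ≤ p) :
    (univ.filter (fun a : ZMod p => lo ≤ a.val ∧ a.val < hi)).card = hi - lo := by
  rw [← Nat.card_Ico]
  apply Finset.card_bij (fun a _ => a.val)
  · intro a ha
    rw [mem_filter] at ha
    rw [mem_Ico]
    exact ha.2
  · intro a _ b _ hab
    exact ZMod.val_injective p hab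
  · intro n hn
    rw [mem_Ico] at hn
    refine ⟨(n : ZMod p), ?_, ZMod.val_natCast_of_lt (by omega)⟩
    rw [mem_filter, ZMod.val_natCast_of_lt (by omega)]
    exact ⟨mem_univ _, hn⟩

lemma card_box {lo hi m : ℕ} (h : hi ≤ p) (hm : m ≤ p) :
    (univ.filter (fun x : Fin (M + 1) → ZMod p => (lo ≤ (x 0).val ∧ (x 0).val < hi) ∧
      ∀ c : Fin M, (x c.succ).val < m)).card = (hi - lo) * m ^ M := by
  have h1 : (univ.filter (fun x : Fin (M + 1) → ZMod p => (lo ≤ (x 0).val ∧ (x 0).val < hi) ∧
      ∀ c : Fin M, (x c.succ).val < m)) =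
      Fintype.piFinset (Fin.cons (univ.filter (fun a : ZMod p => lo ≤ a.val ∧ a.val < hi))
        (fun _ : Fin M => univ.filter (fun a : ZMod p => 0 ≤ a.val ∧ a.val < m))
        : Fin (M + 1) → Finset (ZMod p)) := by
    ext x
    rw [Fintype.mem_piFinset, Fin.forall_fin_succ]
    simp
  rw [h1, Fintype.card_piFinset, Fin.prod_univ_succ]
  simp only [Fin.cons_zero, Fin.cons_succ]
  rw [card_window h, Finset.prod_const, card_window hm, Finset.card_univ, Fintype.card_fin,
    Nat.sub_zero]

/-- normalisation -/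
def norm (ω Y : ℕ) (e : Fin M → Fin Z → Lab Q) (x : Fin (M + 1) → ZMod p) :
    Fin (M + 1) → ZMod p :=
  Fin.cons (x 0) (key ω Y e x)

lemma norm_bij (hQ : 2 ≤ Q) (ω Y : ℕ) (e : Fin M → Fin Z → Lab Q)
    (hf : (2 * Q).factorial < p) : Function.Bijective (norm (p := p) ω Y e) := by
  apply Function.Injective.bijective_of_finite
  intro x x' h
  have h0 : x 0 = x' 0 := by
    have := congrFun h 0
    simpa [norm] using this
  funext i
  refine Fin.cases h0 (fun c => ?_) i
  have h1 := congrFun h c.succ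
  simp only [norm, Fin.cons_succ, key] at h1
  rw [h0] at h1
  have h2 := mul_ne (p := p) Q hQ (lab e c ((x' 0).val / ω)) hf
  apply mul_left_cancel₀ h2
  linear_combination h1

open Classical in
/-- lower bound for the number of elements of the set -/
theorem card_set (hQ : 2 ≤ Q) {ω Y : ℕ} (hω : 1 ≤ ω) (e : Fin M → Fin Z → Lab Q)
    (hN : 8 * (Q + 2) ^ 2 * ω ≤ p) (hY : (2 * Q).factorial * Y ≤ ω)
    (hf : (2 * Q).factorial < p) :
    (univ.filter (fun x : Fin (M + 1) → ZMod p => Corn ω Y x ∨ Body ω Y e x)).card =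
      ω * Y ^ M + (p - p / (Q + 1)) ^ (M + 1) := by
  obtain ⟨g, hg⟩ : ∃ g, g = p / (Q + 1) := ⟨_, rfl⟩
  obtain ⟨hg1, hg2, hg3, hg4⟩ := gap_ineq (p := p) hg hQ hN
  have hYω : Y ≤ ω := le_trans (Nat.le_mul_of_pos_left _ (Nat.factorial_pos _)) hY
  rw [Finset.filter_or, Finset.card_union_of_disjoint]
  · congr 1
    · have := card_box (p := p) (M := M) (lo := ω) (hi := 2 * ω) (m := Y) (by omega) (by omega)
      rw [show 2 * ω - ω = ω by omega] at this
      rw [← this]
      congr 1
      ext x
      simp [Corn]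
    · have h1 := card_box (p := p) (M := M) (lo := g) (hi := p) (m := p - g) le_rfl (by omega)
      rw [← hg, pow_succ, mul_comm, ← h1]
      apply Finset.card_bij (fun x _ => norm ω Y e x)
      · intro x hx
        rw [mem_filter] at hx ⊢
        refine ⟨mem_univ _, ⟨?_, ZMod.val_lt _⟩, ?_⟩
        · simp only [norm, Fin.cons_zero]
          rw [hg]
          exact hx.2.1
        · intro c
          simp only [norm, Fin.cons_succ]
          rw [hg]
          exact hx.2.2 c
      · intro x _ x' _ h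
        exact (norm_bij hQ ω Y e hf).1 h
      · intro z hz
        obtain ⟨x, hx⟩ := (norm_bij (p := p) hQ ω Y e hf).2 z
        refine ⟨x, ?_, hx⟩
        rw [mem_filter] at hz ⊢
        rw [← hx] at hz
        simp only [norm, Fin.cons_zero, Fin.cons_succ] at hz
        rw [hg] at hz
        exact ⟨mem_univ _, hz.2.1.1, hz.2.2⟩
  · rw [Finset.disjoint_left]
    intro x hx hx'
    rw [mem_filter] at hx hx'
    have h1 := hx.2.1
    have h2 := hx'.2.1
    omega

end Pool.Agent.K6.H46.LAP
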