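import Pool.Agent.TH197.SymAP.Interval

/-!
# Progressions in `ZMod p` whose middle term is the largest

The set `[ω, 2ω) ∪ [g, p)` with `g = ⌊p / (Q + 1)⌋` and `ω` small: if a progression of length
`2Q + 1` lies in this set and its middle term is its largest element, then it meets `[ω, 2ω)`, and
either its terms are well separated, or two terms whose indices differ by `Q + 1` are in
`[ω, 2ω)`.
-/

set_option autoImplicit false

namespace Pool.Agent.K6.H46.LAP

open Finset

variable {p : ℕ} [hpf : Fact p.Prime]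

lemma val_sum {u d : ℕ} (hu : u < p) (hd : d < p) :
    (((u + d : ℕ) : ZMod p)).val = if u + d < p then u + d else u + d - p := by
  rw [ZMod.val_natCast]
  split_ifs with h
  · exact Nat.mod_eq_of_lt h
  · rw [Nat.mod_eq_sub_mod (by omega), Nat.mod_eq_of_lt (by omega)]

/-- the hypothesis on the progression -/
def Hyp (Q ω g : ℕ) (a y : ZMod p) : Prop :=
  ∀ i : ℕ, i ≤ 2 * Q → (ω ≤ (a + (i : ZMod p) * y).val ∧ (a + (i : ZMod p) * y).val < 2 * ω) ∨
    (g ≤ (a + (i : ZMod p) * y).val ∧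
      (a + (i : ZMod p) * y).val ≤ (a + (Q : ZMod p) * y).val)

lemma step {Q ω g : ℕ} {a y : ZMod p} (H : Hyp Q ω g a y) (hc : g ≤ (a + (Q : ZMod p) * y).val)
    (hg : 2 * ω ≤ g) {m d : ℕ} (hm : m ≤ Q) (hd1 : 1 ≤ d) (hdp : d < p)
    (hmd : (m : ZMod p) * y = d ∨ (m : ZMod p) * y = -(d : ZMod p)) :
    ∃ i : ℕ, i ≤ 2 * Q ∧ (i = Q + m ∨ i + m = Q) ∧ p ≤ (a + (Q : ZMod p) * y).val + d ∧
      (a + (i : ZMod p) * y).val = (a + (Q : ZMod p) * y).val + d - p ∧
      ((ω ≤ (a + (Q : ZMod p) * y).val + d - p ∧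
        (a + (Q : ZMod p) * y).val + d - p < 2 * ω) ∨
        g ≤ (a + (Q : ZMod p) * y).val + d - p) := by
  obtain ⟨u, hu⟩ : ∃ u, u = (a + (Q : ZMod p) * y).val := ⟨_, rfl⟩
  have hup : u < p := by rw [hu]; exact ZMod.val_lt _
  have hcast : (u : ZMod p) = a + (Q : ZMod p) * y := by
    rw [hu, ZMod.natCast_zmod_val]
  obtain ⟨i, hi, him, hv⟩ : ∃ i : ℕ, i ≤ 2 * Q ∧ (i = Q + m ∨ i + m = Q) ∧
      a + (i : ZMod p) * y = ((u + d : ℕ) : ZMod p) := by
    rcases hmd with h | h
    · refine ⟨Q + m, by omega, Or.inl rfl, ?_⟩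
      push_cast
      rw [hcast, ← h]
      ring
    · refine ⟨Q - m, by omega, Or.inr (by omega), ?_⟩
      have h2 : ((Q - m : ℕ) : ZMod p) = (Q : ZMod p) - (m : ZMod p) := by
        rw [Nat.cast_sub hm]
      rw [h2]
      push_cast
      rw [hcast]
      linear_combination -h
  have h1 := H i hi
  have h2 := val_sum hup hdp
  rw [← hv] at h2
  rw [← hu] at h1 hc ⊢
  refine ⟨i, hi, him, ?_⟩
  split_ifs at h2 with h3
  · exfalso
    omega
  · refine ⟨by omega, h2, ?_⟩
    rw [h2] at h1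
    omega

/-- first part: the progression meets `[ω, 2ω)` -/
lemma hit {Q ω g : ℕ} {a y : ZMod p} (H : Hyp Q ω g a y) (hc : g ≤ (a + (Q : ZMod p) * y).val)
    (hg : 2 * ω ≤ g) (hgp : g = p / (Q + 1)) (hQ : 1 ≤ Q) (hQp : Q < p) (hy : y ≠ 0) :
    ∃ j d i : ℕ, 1 ≤ j ∧ j ≤ Q ∧ 1 ≤ d ∧ d ≤ g ∧
      ((j : ZMod p) * y = d ∨ (j : ZMod p) * y = -(d : ZMod p)) ∧
      i ≤ 2 * Q ∧ (i = Q + j ∨ i + j = Q) ∧
      p ≤ (a + (Q : ZMod p) * y).val + d ∧
      (a + (i : ZMod p) * y).val = (a + (Q : ZMod p) * y).val + d - p ∧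
      ω ≤ (a + (i : ZMod p) * y).val ∧ (a + (i : ZMod p) * y).val < 2 * ω := by
  obtain ⟨j, hj1, hjQ, d, hd1, hd2, hjd⟩ := TH197.SymAP.dirichlet hQ hQp hy
  rw [← hgp] at hd2
  have hgle : g ≤ p / 2 := by
    rw [hgp]
    exact Nat.div_le_div_left (by omega) (by norm_num)
  have hp := hpf.out.two_le
  obtain ⟨i, hi1, hi2, hi3, hi4, hi5⟩ := step H hc hg hjQ hd1 (by omega) hjd
  have hup : (a + (Q : ZMod p) * y).val < p := ZMod.val_lt _
  refine ⟨j, d, i, hj1, hjQ, hd1, hd2, hjd, hi1, hi2, hi3, hi4, ?_, ?_⟩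
  · rw [hi4]; omega
  · rw [hi4]; omega

lemma val_shift {x y' : ZMod p} {U τ : ℕ} (hx : x.val = U)
    (hy : y' = x + τ ∨ y' = x - τ) (hτ : τ ≤ U) (hU : U + τ < p) :
    y'.val = U + τ ∨ y'.val = U - τ := by
  have hx' : x = (U : ZMod p) := by rw [← hx, ZMod.natCast_zmod_val]
  rcases hy with h | h
  · left
    rw [h, hx', ← Nat.cast_add, ZMod.val_natCast_of_lt hU]
  · right
    rw [h, hx', ← Nat.cast_sub hτ, ZMod.val_natCast_of_lt (by omega)]

/-- a small multiple `m y` with `m ≥ Q + 2` is impossible -/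
lemma no_long {Q ω g : ℕ} {a y : ZMod p} (H : Hyp Q ω g a y)
    (hc : g ≤ (a + (Q : ZMod p) * y).val) (hgp : g = p / (Q + 1)) (hQ : 2 ≤ Q) (hω : 1 ≤ ω)
    (hN : 8 * (Q + 2) ^ 2 * ω ≤ p) (hy : y ≠ 0) {m τ : ℕ} (hm1 : Q + 2 ≤ m) (hm2 : m ≤ 2 * Q)
    (hτ : τ < ω) (hmτ : (m : ZMod p) * y = τ ∨ (m : ZMod p) * y = -(τ : ZMod p)) : False := by
  have hgQ : g * (Q + 1) ≤ p := by rw [hgp]; exact Nat.div_mul_le_self _ _
  have hgQ2 : p < g * (Q + 1) + (Q + 1) := by
    rw [hgp]
    exact Nat.lt_div_mul_add (by omega)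
  obtain ⟨B, hB⟩ : ∃ B, B = Q * ω := ⟨_, rfl⟩
  obtain ⟨A, hA⟩ : ∃ A, A = Q * B := ⟨_, rfl⟩
  have hN' : 8 * A + 32 * B + 32 * ω ≤ p := by
    have : 8 * A + 32 * B + 32 * ω = 8 * (Q + 2) ^ 2 * ω := by rw [hA, hB]; ring
    omega
  have hBω : 2 * ω ≤ B := by rw [hB]; exact Nat.mul_le_mul_right ω hQ
  have hAB : 2 * B ≤ A := by rw [hA]; exact Nat.mul_le_mul_right B hQ
  have hBQ : Q ≤ B := by rw [hB]; exact Nat.le_mul_of_pos_right Q hω
  have hQp : Q < p := by omega
  have h2ω : 3 * ω ≤ g := by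
    by_contra hcon
    have h1 : g + 1 ≤ 3 * ω := by omega
    have h2 : (g + 1) * (Q + 1) ≤ 3 * ω * (Q + 1) := Nat.mul_le_mul_right _ h1
    have h3 : 3 * ω * (Q + 1) = 3 * B + 3 * ω := by rw [hB]; ring
    have h4 : (g + 1) * (Q + 1) = g * (Q + 1) + (Q + 1) := by ring
    omega
  obtain ⟨j, d, i, hj1, hjQ, hd1, hd2, hjd, hi1, hi2, hi3, hi4, hi5, hi6⟩ :=
    hit H hc (by omega) hgp (by omega) hQp hy
  have hup : (a + (Q : ZMod p) * y).val < p := ZMod.val_lt _
  rw [hi4] at hi5 hi6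
  have hdω : ω + 1 ≤ d := by omega
  have h3g : 3 * g ≤ p := by
    have h1 : g * 3 ≤ g * (Q + 1) := Nat.mul_le_mul_left g (by omega)
    omega
  have hωp : 128 * ω ≤ p := by omega
  obtain ⟨s, hs, hjs⟩ : ∃ s : ℤ, (s = 1 ∨ s = -1) ∧ (j : ZMod p) * y = s * d := by
    rcases hjd with h | h
    · exact ⟨1, Or.inl rfl, by rw [h]; push_cast; ring⟩
    · exact ⟨-1, Or.inr rfl, by rw [h]; push_cast; ring⟩
  obtain ⟨t, ht, hmt⟩ : ∃ t : ℤ, (t = 1 ∨ t = -1) ∧ (m : ZMod p) * y = t * τ := by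
    rcases hmτ with h | h
    · exact ⟨1, Or.inl rfl, by rw [h]; push_cast; ring⟩
    · exact ⟨-1, Or.inr rfl, by rw [h]; push_cast; ring⟩
  have hss : (s : ZMod p) * s = 1 := by
    rcases hs with h | h <;> rw [h] <;> push_cast <;> ring
  have hst : s * t = 1 ∨ s * t = -1 := by
    rcases hs with h | h <;> rcases ht with h' | h' <;> rw [h, h'] <;> norm_num
  have hrel : (p : ℤ) ∣ (m : ℤ) * d - s * t * (j * τ) := by
    rw [← ZMod.intCast_zmod_eq_zero_iff_dvd]
    push_cast
    linear_combination (-(m : ZMod p) * d) * hss - (s : ZMod p) * m * hjs + (s : ZMod p) * j * hmt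
  have hjτ : j * τ ≤ B := by rw [hB]; exact Nat.mul_le_mul hjQ hτ.le
  have hmd1 : (Q + 2) * (ω + 1) ≤ m * d := Nat.mul_le_mul hm1 hdω
  have hmd2 : m * d ≤ 2 * Q * g := Nat.mul_le_mul hm2 hd2
  have hmd3 : (Q + 1) * (m * d) ≤ 2 * (Q * p) := by
    calc (Q + 1) * (m * d) ≤ (Q + 1) * (2 * Q * g) := Nat.mul_le_mul_left _ hmd2
      _ = 2 * (Q * (g * (Q + 1))) := by ring
      _ ≤ 2 * (Q * p) := Nat.mul_le_mul_left _ (Nat.mul_le_mul_left _ hgQ)
  have hmd4 : m * d + B < 2 * p := by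
    have h1 : (Q + 1) * (m * d + B) < (Q + 1) * (2 * p) := by
      have h2 : (Q + 1) * (m * d + B) = (Q + 1) * (m * d) + (A + B) := by rw [hA]; ring
      have h3 : (Q + 1) * (2 * p) = 2 * (Q * p) + 2 * p := by ring
      omega
    exact Nat.lt_of_mul_lt_mul_left h1
  have hmd5 : B < m * d := by
    have h1 : (Q + 2) * (ω + 1) = B + 2 * ω + Q + 2 := by rw [hB]; ring
    omega
  have heq : (m : ℤ) * d - s * t * (j * τ) = p := by
    obtain ⟨c, hc'⟩ := hrel
    have hp0 : (0 : ℤ) < p := by exact_mod_cast hpf.out.pos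
    have e1 : (j : ℤ) * τ ≤ B := by exact_mod_cast hjτ
    have e2 : (m : ℤ) * d + B < 2 * p := by exact_mod_cast hmd4
    have e3 : (B : ℤ) < m * d := by exact_mod_cast hmd5
    have e4 : (0 : ℤ) ≤ (j : ℤ) * τ := by positivity
    have h1 : 0 < (p : ℤ) * c := by
      rw [← hc']
      rcases hst with h | h <;> rw [h] <;> linarith
    have h2 : (p : ℤ) * c < 2 * p := by
      rw [← hc']
      rcases hst with h | h <;> rw [h] <;> linarith
    have h3 : 0 < c := by
      by_contra h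
      push Not at h
      nlinarith
    have h4 : c < 2 := by
      by_contra h
      push Not at h
      nlinarith
    have h5 : c = 1 := by omega
    rw [hc', h5, mul_one]
  have hmd6 : p ≤ m * d + B := by
    have e1 : (j : ℤ) * τ ≤ B := by exact_mod_cast hjτ
    have e4 : (0 : ℤ) ≤ (j : ℤ) * τ := by positivity
    have : (p : ℤ) ≤ m * d + B := by
      rw [← heq]
      rcases hst with h | h <;> rw [h] <;> linarith
    exact_mod_cast this
  have hmd7 : m * d ≤ p + B := by
    have e1 : (j : ℤ) * τ ≤ B := by exact_mod_cast hjτ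
    have e4 : (0 : ℤ) ≤ (j : ℤ) * τ := by positivity
    have : (m : ℤ) * d ≤ p + B := by
      rw [← heq]
      rcases hst with h | h <;> rw [h] <;> linarith
    exact_mod_cast this
  have hd3 : 2 * ω ≤ d := by
    by_contra hcon
    push Not at hcon
    have h1 : m * d ≤ 2 * Q * (2 * ω) := Nat.mul_le_mul hm2 hcon.le
    have h2 : 2 * Q * (2 * ω) = 4 * B := by rw [hB]; ring
    omega
  have key : ∀ m' d' : ℕ, m' ≤ Q →
      ((m' : ZMod p) * y = d' ∨ (m' : ZMod p) * y = -(d' : ZMod p)) →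
      2 * d ≤ d' + ω → d' ≤ 2 * d + ω → False := by
    intro m' d' hm' hd' h1 h2
    obtain ⟨i', hi'1, hi'2, hi'3, hi'4, hi'5⟩ := step H hc (by omega) hm' (by omega)
      (by omega) hd'
    rcases hi'5 with h | h
    · omega
    · have h3 : g < 3 * ω + d := by omega
      have h4 : (Q + 2) * d ≤ p + B := (Nat.mul_le_mul_right d hm1).trans hmd7
      have h5 : (g + 1) * (Q + 1) ≤ (3 * ω + d) * (Q + 1) := Nat.mul_le_mul_right _ h3
      have h6 : (g + 1) * (Q + 1) = g * (Q + 1) + (Q + 1) := by ring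
      have h7 : (3 * ω + d) * (Q + 1) = 3 * B + 3 * ω + Q * d + d := by rw [hB]; ring
      have h8 : (Q + 2) * d = Q * d + 2 * d := by ring
      have h9 : d ≤ 4 * B + 3 * ω := by omega
      have h10 : Q * d ≤ Q * (4 * B + 3 * ω) := Nat.mul_le_mul_left _ h9
      have h11 : Q * (4 * B + 3 * ω) = 4 * A + 3 * B := by rw [hA, hB]; ring
      omega
  rcases lt_trichotomy (2 * j) m with h | h | h
  · by_cases h5 : 2 * j ≤ Q
    · refine key (2 * j) (2 * d) h5 ?_ (by omega) (by omega)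
      rcases hs with h' | h'
      · left
        rw [h'] at hjs
        push_cast at hjs ⊢
        linear_combination 2 * hjs
      · right
        rw [h'] at hjs
        push_cast at hjs ⊢
        linear_combination 2 * hjs
    · have h6 : ((m - 2 * j : ℕ) : ZMod p) = (m : ZMod p) - 2 * (j : ZMod p) := by
        rw [Nat.cast_sub h.le]
        push_cast
        ring
      rcases hs with h' | h' <;> rcases ht with h'' | h'' <;> rw [h'] at hjs <;> rw [h''] at hmt
      · refine key (m - 2 * j) (2 * d - τ) (by omega) (Or.inr ?_) (by omega) (by omega)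
        rw [h6, Nat.cast_sub (by omega)]
        push_cast at hjs hmt ⊢
        linear_combination hmt - 2 * hjs
      · refine key (m - 2 * j) (2 * d + τ) (by omega) (Or.inr ?_) (by omega) (by omega)
        rw [h6]
        push_cast at hjs hmt ⊢
        linear_combination hmt - 2 * hjs
      · refine key (m - 2 * j) (2 * d + τ) (by omega) (Or.inl ?_) (by omega) (by omega)
        rw [h6]
        push_cast at hjs hmt ⊢
        linear_combination hmt - 2 * hjs
      · refine key (m - 2 * j) (2 * d - τ) (by omega) (Or.inl ?_) (by omega) (by omega)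
        rw [h6, Nat.cast_sub (by omega)]
        push_cast at hjs hmt ⊢
        linear_combination hmt - 2 * hjs
  · -- `2 j = m`
    have h7 : (p : ℤ) ∣ 2 * (d : ℤ) - s * t * τ := by
      rw [← ZMod.intCast_zmod_eq_zero_iff_dvd]
      have h8 : (m : ZMod p) = 2 * (j : ZMod p) := by
        rw [← h]
        push_cast
        ring
      rw [h8] at hmt
      push_cast
      linear_combination (-(2 : ZMod p) * d) * hss - (s : ZMod p) * 2 * hjs + (s : ZMod p) * hmt
    have h9 := Int.le_of_dvd (by rcases hst with h' | h' <;> rw [h'] <;> omega) h7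
    rcases hst with h' | h' <;> rw [h'] at h9 <;> omega
  · by_cases h5 : 2 * j ≤ Q
    · omega
    · have h6 : ((2 * j - m : ℕ) : ZMod p) = 2 * (j : ZMod p) - (m : ZMod p) := by
        rw [Nat.cast_sub h.le]
        push_cast
        ring
      rcases hs with h' | h' <;> rcases ht with h'' | h'' <;> rw [h'] at hjs <;> rw [h''] at hmt
      · refine key (2 * j - m) (2 * d - τ) (by omega) (Or.inl ?_) (by omega) (by omega)
        rw [h6, Nat.cast_sub (by omega)]
        push_cast at hjs hmt ⊢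
        linear_combination 2 * hjs - hmt
      · refine key (2 * j - m) (2 * d + τ) (by omega) (Or.inl ?_) (by omega) (by omega)
        rw [h6]
        push_cast at hjs hmt ⊢
        linear_combination 2 * hjs - hmt
      · refine key (2 * j - m) (2 * d + τ) (by omega) (Or.inr ?_) (by omega) (by omega)
        rw [h6]
        push_cast at hjs hmt ⊢
        linear_combination 2 * hjs - hmt
      · refine key (2 * j - m) (2 * d - τ) (by omega) (Or.inr ?_) (by omega) (by omega)
        rw [h6, Nat.cast_sub (by omega)]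
        push_cast at hjs hmt ⊢
        linear_combination 2 * hjs - hmt

/-- Either two terms of the progression whose indices differ by `Q + 1` are in `[ω, 2ω)`, or a term
other than the middle one is in `[ω, 2ω)` and the terms are at mutual distance at least `ω`. -/
theorem sep {Q ω g : ℕ} {a y : ZMod p} (H : Hyp Q ω g a y)
    (hc : g ≤ (a + (Q : ZMod p) * y).val) (hgp : g = p / (Q + 1)) (hQ : 2 ≤ Q) (hω : 1 ≤ ω)
    (hN : 8 * (Q + 2) ^ 2 * ω ≤ p) (hy : y ≠ 0) :
    (∃ i : ℕ, i + (Q + 1) ≤ 2 * Q ∧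
      (ω ≤ (a + (i : ZMod p) * y).val ∧ (a + (i : ZMod p) * y).val < 2 * ω) ∧
      (ω ≤ (a + ((i + (Q + 1) : ℕ) : ZMod p) * y).val ∧
        (a + ((i + (Q + 1) : ℕ) : ZMod p) * y).val < 2 * ω)) ∨
    ((∃ i : ℕ, i ≤ 2 * Q ∧ i ≠ Q ∧
      (ω ≤ (a + (i : ZMod p) * y).val ∧ (a + (i : ZMod p) * y).val < 2 * ω)) ∧
      ∀ i i' : ℕ, i < i' → i' ≤ 2 * Q →
        (a + (i : ZMod p) * y).val + ω ≤ (a + (i' : ZMod p) * y).val ∨
        (a + (i' : ZMod p) * y).val + ω ≤ (a + (i : ZMod p) * y).val) := by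
  have hgQ2 : p < g * (Q + 1) + (Q + 1) := by
    rw [hgp]
    exact Nat.lt_div_mul_add (by omega)
  obtain ⟨B, hB⟩ : ∃ B, B = Q * ω := ⟨_, rfl⟩
  obtain ⟨A, hA⟩ : ∃ A, A = Q * B := ⟨_, rfl⟩
  have hN' : 8 * A + 32 * B + 32 * ω ≤ p := by
    have : 8 * A + 32 * B + 32 * ω = 8 * (Q + 2) ^ 2 * ω := by rw [hA, hB]; ring
    omega
  have hBω : 2 * ω ≤ B := by rw [hB]; exact Nat.mul_le_mul_right ω hQ
  have hBQ : Q ≤ B := by rw [hB]; exact Nat.le_mul_of_pos_right Q hω
  have hQp : Q < p := by omega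
  have h2ω : 3 * ω ≤ g := by
    by_contra hcon
    have h1 : g + 1 ≤ 3 * ω := by omega
    have h2 : (g + 1) * (Q + 1) ≤ 3 * ω * (Q + 1) := Nat.mul_le_mul_right _ h1
    have h3 : 3 * ω * (Q + 1) = 3 * B + 3 * ω := by rw [hB]; ring
    have h4 : (g + 1) * (Q + 1) = g * (Q + 1) + (Q + 1) := by ring
    omega
  have hgp' : g ≤ p := by rw [hgp]; exact Nat.div_le_self _ _
  have hup : (a + (Q : ZMod p) * y).val < p := ZMod.val_lt _
  obtain ⟨j, d, i, hj1, hjQ, hd1, hd2, hjd, hi1, hi2, hi3, hi4, hi5, hi6⟩ :=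
    hit H hc (by omega) hgp (by omega) hQp hy
  by_cases hsm : ∃ m τ : ℕ, 1 ≤ m ∧ m ≤ 2 * Q ∧ τ < ω ∧
      ((m : ZMod p) * y = τ ∨ (m : ZMod p) * y = -(τ : ZMod p))
  · obtain ⟨m, τ, hm1, hm2, hτ, hmτ⟩ := hsm
    rcases lt_trichotomy m (Q + 1) with h | h | h
    · exfalso
      have hτ1 : 1 ≤ τ := by
        by_contra h0
        have h1 : τ = 0 := by omega
        rw [h1, Nat.cast_zero, neg_zero, or_self, mul_eq_zero] at hmτ
        rcases hmτ with h2 | h2
        · rw [ZMod.natCast_eq_zero_iff] at h2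
          have := Nat.le_of_dvd hm1 h2
          omega
        · exact hy h2
      obtain ⟨i', hi'1, hi'2, hi'3, hi'4, hi'5⟩ := step H hc (by omega) (by omega) hτ1
        (by omega) hmτ
      omega
    · left
      subst h
      have hcast : ((Q + 1 : ℕ) : ZMod p) = (Q : ZMod p) + 1 := by push_cast; ring
      rcases hi2 with h | h
      · -- `i = Q + j`, other index `j - 1`
        refine ⟨i - (Q + 1), by omega, ?_, ?_⟩
        · have e1 : a + ((i - (Q + 1) : ℕ) : ZMod p) * y = a + (i : ZMod p) * y + τ ∨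
              a + ((i - (Q + 1) : ℕ) : ZMod p) * y = a + (i : ZMod p) * y - τ := by
            rw [Nat.cast_sub (by omega)]
            rcases hmτ with h' | h'
            · right
              linear_combination -h'
            · left
              linear_combination -h'
          have e2 := val_shift rfl e1 (by omega) (by omega)
          have e3 := H (i - (Q + 1)) (by omega)
          omega
        · rw [Nat.sub_add_cancel (by omega)]
          exact ⟨hi5, hi6⟩
      · refine ⟨i, by omega, ⟨hi5, hi6⟩, ?_⟩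
        have e1 : a + ((i + (Q + 1) : ℕ) : ZMod p) * y = a + (i : ZMod p) * y + τ ∨
            a + ((i + (Q + 1) : ℕ) : ZMod p) * y = a + (i : ZMod p) * y - τ := by
          rw [Nat.cast_add]
          rcases hmτ with h' | h'
          · left
            linear_combination h'
          · right
            linear_combination h'
        have e2 := val_shift rfl e1 (by omega) (by omega)
        have e3 := H (i + (Q + 1)) (by omega)
        omega
    · exact absurd (no_long H hc hgp hQ hω hN hy h hm2 hτ hmτ) id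
  · right
    refine ⟨⟨i, hi1, by omega, hi5, hi6⟩, ?_⟩
    intro i i' hii' hi'
    by_contra hcon
    push Not at hcon
    apply hsm
    have hx : a + (i : ZMod p) * y = ((a + (i : ZMod p) * y).val : ZMod p) := by
      rw [ZMod.natCast_zmod_val]
    have hx' : a + (i' : ZMod p) * y = ((a + (i' : ZMod p) * y).val : ZMod p) := by
      rw [ZMod.natCast_zmod_val]
    have hm : ((i' - i : ℕ) : ZMod p) = (i' : ZMod p) - (i : ZMod p) := Nat.cast_sub hii'.le
    rcases le_total (a + (i : ZMod p) * y).val (a + (i' : ZMod p) * y).val with h | h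
    · refine ⟨i' - i, (a + (i' : ZMod p) * y).val - (a + (i : ZMod p) * y).val, by omega,
        by omega, by omega, Or.inl ?_⟩
      rw [Nat.cast_sub h, ← hx, ← hx', hm]
      ring
    · refine ⟨i' - i, (a + (i : ZMod p) * y).val - (a + (i' : ZMod p) * y).val, by omega,
        by omega, by omega, Or.inr ?_⟩
      rw [Nat.cast_sub h, ← hx, ← hx', hm]
      ring

end Pool.Agent.K6.H46.LAP
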