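import Pool.Agent.K6.H46.LAP.Sep

/-!
# The sets

The coordinates of `F_p^{M+1}` are `u` and `v_1, …, v_M`. The set consists of a body `u ≥ g`, in
which `v_c` is in an affine image of the interval `[0, p - g)` that depends on `c` and on
`⌊u / ω⌋`, and of the small corner `ω ≤ u < 2 ω`, `v_c < Y`.
-/

set_option autoImplicit false

namespace Pool.Agent.K6.H46.LAP

open Finset

/-- A set carries no balanced weight if each nonempty subset has an element that is not the
`i₀`-th term of a nontrivial progression in the subset. -/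
theorem not_balanced_of_good {G : Type} [AddCommGroup G] [Fintype G] [DecidableEq G]
    (k i₀ : ℕ) (hi₀ : i₀ < k) (S : Finset G)
    (h : ∀ T : Finset G, T ⊆ S → T.Nonempty → ∃ x ∈ T, ∀ a y : G, y ≠ 0 →
      (∀ i : ℕ, i < k → a + i • y ∈ T) → a + i₀ • y ≠ x) :
    ¬ TH197.SymAP.Balanced k S := by
  classical
  rintro ⟨w, ⟨q₀, hq₀⟩, hsup, hbal⟩
  set T : Finset G := univ.filter (fun s => (∑ q : G × G, if q.1 = s then w q else 0) ≠ 0) with hT
  have hmem : ∀ q, w q ≠ 0 → ∀ i : ℕ, i < k → q.1 + i • q.2 ∈ T := by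
    intro q hq i hi
    rw [hT, mem_filter]
    refine ⟨mem_univ _, ?_⟩
    rw [← hbal i hi]
    have h3 := Finset.single_le_sum (f := fun q' : G × G =>
      if q'.1 + i • q'.2 = q.1 + i • q.2 then w q' else 0)
      (fun _ _ => Nat.zero_le _) (Finset.mem_univ q)
    beta_reduce at h3
    rw [if_pos rfl] at h3
    omega
  have hsub : T ⊆ S := by
    intro s hs
    rw [hT, mem_filter] at hs
    by_contra hcon
    apply hs.2
    apply Finset.sum_eq_zero
    intro q _
    split_ifs with h1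
    · by_contra h2
      have h3 := (hsup q h2).2 0 (by omega)
      rw [zero_smul, add_zero, h1] at h3
      exact hcon h3
    · rfl
  obtain ⟨x, hx, hx2⟩ := h T hsub ⟨_, hmem q₀ hq₀ i₀ hi₀⟩
  rw [hT, mem_filter] at hx
  apply hx.2
  rw [← hbal i₀ hi₀]
  apply Finset.sum_eq_zero
  intro q _
  split_ifs with h1
  · by_contra h2
    exact hx2 q.1 q.2 (hsup q h2).1 (hmem q h2) h1
  · rfl

/-- labels -/
abbrev Lab (Q : ℕ) := Option (Fin (2 * Q + 1) × Fin (2 * Q + 1))

/-- the dilation that belongs to a label -/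
def mul (Q : ℕ) : Lab Q → ℤ
  | none => Q + 1
  | some (a, b) => if a = b then 1 else ((2 * Q).factorial : ℤ) / ((b : ℕ) - (a : ℕ) : ℤ)

/-- the translation that belongs to a label -/
def off (p Q Y : ℕ) : Lab Q → ℕ
  | none => (Q + 1) * Y
  | some (a, b) => ((if (b : ℕ) < a then (b : ℕ) else b - 1) + 1) * p / (Q + 2) + 1 +
      (2 * Q).factorial * Y

lemma mul_diff {Q : ℕ} (a b : Fin (2 * Q + 1)) (hab : a ≠ b) :
    mul Q (some (a, b)) * ((b : ℕ) - (a : ℕ) : ℤ) = (2 * Q).factorial := by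
  have hab' : (a : ℕ) ≠ b := fun h => hab (Fin.ext h)
  simp only [mul, if_neg hab]
  apply Int.ediv_mul_cancel
  have h1 : ((b : ℕ) - (a : ℕ) : ℤ).natAbs ∣ (2 * Q).factorial := by
    apply Nat.dvd_factorial
    · omega
    · have := a.2
      have := b.2
      omega
  exact Int.natAbs_dvd.1 (by exact_mod_cast h1)

lemma mul_bound (Q : ℕ) (hQ : 2 ≤ Q) (l : Lab Q) :
    mul Q l ≠ 0 ∧ |mul Q l| ≤ (2 * Q).factorial := by
  have hf : (Q + 1 : ℤ) ≤ (2 * Q).factorial := by
    have h1 : 2 * Q ≤ (2 * Q).factorial := Nat.self_le_factorial _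
    have h2 : Q + 1 ≤ (2 * Q).factorial := by omega
    exact_mod_cast h2
  rcases l with _ | ⟨a, b⟩
  · simp only [mul]
    constructor
    · omega
    · rw [abs_of_nonneg (by omega)]
      exact hf
  · by_cases hab : a = b
    · simp only [mul, if_pos hab]
      constructor
      · norm_num
      · rw [abs_one]
        omega
    · have h1 := mul_diff a b hab
      have h2 : ((2 * Q).factorial : ℤ) ≠ 0 := by exact_mod_cast (Nat.factorial_ne_zero _)
      constructor
      · intro h0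
        rw [h0, zero_mul] at h1
        exact h2 h1.symm
      · have hab' : (a : ℕ) ≠ b := fun h => hab (Fin.ext h)
        have h3 : (1 : ℤ) ≤ |((b : ℕ) - (a : ℕ) : ℤ)| := Int.one_le_abs (by omega)
        calc |mul Q (some (a, b))| ≤ |mul Q (some (a, b))| * |((b : ℕ) - (a : ℕ) : ℤ)| :=
              le_mul_of_one_le_right (abs_nonneg _) h3
          _ = |((2 * Q).factorial : ℤ)| := by rw [← abs_mul, h1]
          _ = (2 * Q).factorial := abs_of_nonneg (by positivity)

section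

variable {p : ℕ} [hpf : Fact p.Prime]

lemma mul_ne (Q : ℕ) (hQ : 2 ≤ Q) (l : Lab Q) (hp : (2 * Q).factorial < p) :
    ((mul Q l : ℤ) : ZMod p) ≠ 0 := by
  obtain ⟨h1, h2⟩ := mul_bound Q hQ l
  intro h0
  rw [ZMod.intCast_zmod_eq_zero_iff_dvd] at h0
  have h3 := Int.le_of_dvd (abs_pos.2 h1) ((dvd_abs _ _).2 h0)
  have h4 : (p : ℤ) ≤ (2 * Q).factorial := h3.trans h2
  omega

lemma neg_val {t g : ℕ} (ht1 : 1 ≤ t) (ht : t ≤ g) (hg : g < p) {x : ZMod p}
    (hx : x = -(t : ZMod p)) : p - g ≤ x.val := by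
  have h1 : x = ((p - t : ℕ) : ZMod p) := by
    rw [hx, Nat.cast_sub (by omega), ZMod.natCast_self, zero_sub]
  rw [h1, ZMod.val_natCast_of_lt (by omega)]
  omega

variable {Q M Z : ℕ}

/-- the label of coordinate `c` at `⌊u / ω⌋ = n` -/
def lab (e : Fin M → Fin Z → Lab Q) (c : Fin M) (n : ℕ) : Lab Q :=
  if h : n < Z then e c ⟨n, h⟩ else none

/-- the normalised coordinates -/
def key (ω Y : ℕ) (e : Fin M → Fin Z → Lab Q) (x : Fin (M + 1) → ZMod p) (c : Fin M) : ZMod p :=
  ((mul Q (lab e c ((x 0).val / ω)) : ℤ) : ZMod p) * x c.succ -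
    (off p Q Y (lab e c ((x 0).val / ω)) : ZMod p)

/-- the body -/
def Body (ω Y : ℕ) (e : Fin M → Fin Z → Lab Q) (x : Fin (M + 1) → ZMod p) : Prop :=
  p / (Q + 1) ≤ (x 0).val ∧ ∀ c, (key ω Y e x c).val < p - p / (Q + 1)

/-- the corner -/
def Corn (ω Y : ℕ) (x : Fin (M + 1) → ZMod p) : Prop :=
  (ω ≤ (x 0).val ∧ (x 0).val < 2 * ω) ∧ ∀ c : Fin M, (x c.succ).val < Y

lemma gap_ineq {g ω : ℕ} (hgp : g = p / (Q + 1)) (hQ : 2 ≤ Q)
    (hN : 8 * (Q + 2) ^ 2 * ω ≤ p) : p / (Q + 2) + 3 * ω ≤ g ∧ g < p ∧ 2 * g ≤ p ∧ 3 * ω ≤ g := by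
  have hgQ : g * (Q + 1) ≤ p := by rw [hgp]; exact Nat.div_mul_le_self _ _
  have hgQ2 : p < g * (Q + 1) + (Q + 1) := by
    rw [hgp]
    exact Nat.lt_div_mul_add (by omega)
  have hp := hpf.out.two_le
  have h2 : 2 * g ≤ p := by
    have h1 : g * 2 ≤ g * (Q + 1) := Nat.mul_le_mul_left g (by omega)
    omega
  suffices h : p / (Q + 2) + 3 * ω ≤ g from
    ⟨h, by omega, h2, (Nat.le_add_left _ _).trans h⟩
  by_contra hcon
  have h1 : g + 1 ≤ p / (Q + 2) + 3 * ω := by omega
  obtain ⟨t, ht⟩ : ∃ t, t = p / (Q + 2) := ⟨_, rfl⟩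
  have ht1 : t * (Q + 2) ≤ p := by rw [ht]; exact Nat.div_mul_le_self _ _
  rw [← ht] at h1
  have h3 : (g + 1) * (Q + 1) * (Q + 2) ≤ (t + 3 * ω) * (Q + 1) * (Q + 2) := by
    gcongr
  have h4 : (t + 3 * ω) * (Q + 1) * (Q + 2) = t * (Q + 2) * (Q + 1) +
      3 * (ω * ((Q + 1) * (Q + 2))) := by ring
  have h5 : t * (Q + 2) * (Q + 1) ≤ p * (Q + 1) := Nat.mul_le_mul_right _ ht1
  have h6 : (p + 1) * (Q + 2) ≤ (g + 1) * (Q + 1) * (Q + 2) :=
    Nat.mul_le_mul_right _ (by
      have : (g + 1) * (Q + 1) = g * (Q + 1) + (Q + 1) := by ring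
      omega)
  have h7 : (p + 1) * (Q + 2) = p * (Q + 1) + p + (Q + 2) := by ring
  have h8 : ω * ((Q + 1) * (Q + 2)) ≤ ω * ((Q + 2) * (Q + 2)) := by gcongr; omega
  have h9 : 8 * (Q + 2) ^ 2 * ω = 8 * (ω * ((Q + 2) * (Q + 2))) := by ring
  omega

/-- the vector that is minimised lexicographically -/
def K (ω Y : ℕ) (e : Fin M → Fin Z → Lab Q) (x : Fin (M + 1) → ZMod p) (c : Fin M) : ℕ :=
  if p / (Q + 1) ≤ (x 0).val then (key ω Y e x c).val else (x c.succ).val

lemma coord (a y : Fin (M + 1) → ZMod p) (i : ℕ) (c : Fin (M + 1)) :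
    (a + i • y) c = a c + (i : ZMod p) * y c := by
  rw [Pi.add_apply, Pi.smul_apply, nsmul_eq_mul]

/-- progressions with constant first coordinate -/
lemma flat_case (hQ : 2 ≤ Q) {ω Y : ℕ} (e : Fin M → Fin Z → Lab Q)
    (hN : 8 * (Q + 2) ^ 2 * ω ≤ p) (hf : (2 * Q).factorial < p) (hY : 2 * Y ≤ p)
    (a y : Fin (M + 1) → ZMod p) (hy : y ≠ 0) (hy0 : y 0 = 0)
    (hP : ∀ i : ℕ, i < 2 * Q + 1 → Corn ω Y (a + i • y) ∨ Body ω Y e (a + i • y)) :
    ∃ i : ℕ, i < 2 * Q + 1 ∧ (a + i • y) 0 = (a + Q • y) 0 ∧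
      ∃ c, (∀ c' < c, K ω Y e (a + i • y) c' = K ω Y e (a + Q • y) c') ∧
        K ω Y e (a + i • y) c < K ω Y e (a + Q • y) c := by
  classical
  obtain ⟨g, hg⟩ : ∃ g, g = p / (Q + 1) := ⟨_, rfl⟩
  obtain ⟨hg1, hg2, hg3, hg4⟩ := gap_ineq (p := p) hg hQ hN
  obtain ⟨c, hc, hcmin⟩ : ∃ c : Fin M, y c.succ ≠ 0 ∧ ∀ c' < c, y c'.succ = 0 := by
    have hne : (univ.filter (fun c : Fin M => y c.succ ≠ 0)).Nonempty := by
      by_contra hcon
      apply hy
      funext i
      refine Fin.cases hy0 (fun j => ?_) i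
      by_contra h
      exact hcon ⟨j, by rw [mem_filter]; exact ⟨mem_univ _, h⟩⟩
    obtain ⟨c, hc, hmin⟩ := Finset.exists_min_image _ id hne
    rw [mem_filter] at hc
    refine ⟨c, hc.2, fun c' hc' => ?_⟩
    by_contra h
    exact absurd (hmin c' (by simp [h])) (not_le.2 hc')
  have h0 : ∀ i : ℕ, (a + i • y) 0 = (a + Q • y) 0 := by
    intro i
    rw [coord, coord, hy0, mul_zero, mul_zero]
  have hsame : ∀ i : ℕ, ∀ c' < c, (a + i • y) c'.succ = (a + Q • y) c'.succ := by
    intro i c' hc'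
    rw [coord, coord, hcmin c' hc', mul_zero, mul_zero]
  have hkey : ∀ i : ℕ, ∀ c' < c, K ω Y e (a + i • y) c' = K ω Y e (a + Q • y) c' := by
    intro i c' hc'
    unfold K
    simp only [h0 i]
    split_ifs with h
    · unfold key
      rw [h0 i, hsame i c' hc']
    · rw [hsame i c' hc']
  by_cases hb : g ≤ ((a + Q • y) 0).val
  · have hbody : ∀ i : ℕ, i < 2 * Q + 1 → (key ω Y e (a + i • y) c).val < p - g := by
      intro i hi
      rcases hP i hi with h | h
      · exfalso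
        have h1 := h.1.2
        rw [h0 i] at h1
        omega
      · rw [hg]
        exact h.2 c
    have hK : ∀ i : ℕ, K ω Y e (a + i • y) c = (key ω Y e (a + i • y) c).val := by
      intro i
      unfold K
      rw [h0 i, if_pos (by rw [← hg]; exact hb)]
    obtain ⟨μ, hμ⟩ : ∃ μ : ZMod p, μ =
      ((mul Q (lab e c (((a + Q • y) 0).val / ω)) : ℤ) : ZMod p) := ⟨_, rfl⟩
    have hμ0 : μ ≠ 0 := by rw [hμ]; exact mul_ne Q hQ _ hf
    have hdiff : ∀ i : ℕ, key ω Y e (a + i • y) c = key ω Y e (a + Q • y) c +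
        μ * ((i : ZMod p) - Q) * y c.succ := by
      intro i
      unfold key
      rw [h0 i, ← hμ, coord a y i c.succ, coord a y Q c.succ]
      ring
    obtain ⟨j, hj1, hjQ, d, hd1, hd2, hjd⟩ := TH197.SymAP.dirichlet (p := p) (Q := Q) (by omega)
      (by
        have := Nat.self_le_factorial (2 * Q)
        omega) (mul_ne_zero hμ0 hc)
    rw [← hg] at hd2
    obtain ⟨i, hi, hid⟩ : ∃ i : ℕ, i < 2 * Q + 1 ∧
        key ω Y e (a + i • y) c = key ω Y e (a + Q • y) c - (d : ZMod p) := by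
      rcases hjd with h | h
      · refine ⟨Q - j, by omega, ?_⟩
        rw [hdiff, Nat.cast_sub hjQ]
        linear_combination -h
      · refine ⟨Q + j, by omega, ?_⟩
        rw [hdiff]
        push_cast
        linear_combination h
    refine ⟨i, hi, h0 i, c, hkey i, ?_⟩
    rw [hK, hK]
    have h1 := hbody i hi
    have h2 : key ω Y e (a + Q • y) c = ((key ω Y e (a + Q • y) c).val : ZMod p) := by
      rw [ZMod.natCast_zmod_val]
    by_cases h3 : d ≤ (key ω Y e (a + Q • y) c).val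
    · have h4 : (key ω Y e (a + i • y) c).val = (key ω Y e (a + Q • y) c).val - d := by
        rw [hid]
        conv_lhs => rw [h2]
        rw [← Nat.cast_sub h3, ZMod.val_natCast_of_lt]
        have := ZMod.val_lt (key ω Y e (a + Q • y) c)
        omega
      omega
    · exfalso
      have h4 : key ω Y e (a + i • y) c =
          -((d - (key ω Y e (a + Q • y) c).val : ℕ) : ZMod p) := by
        rw [hid, Nat.cast_sub (by omega), ← h2]
        ring
      have h5 := neg_val (g := g) (by omega) (by omega) hg2 h4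
      omega
  · have hcorn : ∀ i : ℕ, i < 2 * Q + 1 → ((a + i • y) c.succ).val < Y := by
      intro i hi
      rcases hP i hi with h | h
      · exact h.2 c
      · exfalso
        apply hb
        rw [hg, ← h0 i]
        exact h.1
    have hK : ∀ i : ℕ, K ω Y e (a + i • y) c = ((a + i • y) c.succ).val := by
      intro i
      unfold K
      rw [h0 i, if_neg (by rw [← hg]; exact hb)]
    have hv : ∀ i : ℕ, (a + i • y) c.succ = (((a + i • y) c.succ).val : ZMod p) := by
      intro i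
      rw [ZMod.natCast_zmod_val]
    have h1 := hcorn (Q + 1) (by omega)
    have h2 := hcorn (Q - 1) (by omega)
    have h3 := hcorn Q (by omega)
    have hsum : ((a + (Q + 1) • y) c.succ).val + ((a + (Q - 1) • y) c.succ).val =
        2 * ((a + Q • y) c.succ).val := by
      have h4 : (((((a + (Q + 1) • y) c.succ).val + ((a + (Q - 1) • y) c.succ).val : ℕ)) : ZMod p)
          = ((2 * ((a + Q • y) c.succ).val : ℕ) : ZMod p) := by
        push_cast
        rw [← hv, ← hv, ← hv, coord, coord, coord, Nat.cast_sub (by omega)]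
        push_cast
        ring
      have h5 := congrArg ZMod.val h4
      rwa [ZMod.val_natCast_of_lt (by omega), ZMod.val_natCast_of_lt (by omega)] at h5
    have hne : ((a + (Q + 1) • y) c.succ).val ≠ ((a + Q • y) c.succ).val := by
      intro h
      have h4 := ZMod.val_injective p h
      rw [coord, coord] at h4
      push_cast at h4
      apply hc
      linear_combination h4
    rcases lt_or_gt_of_ne hne with h | h
    · exact ⟨Q + 1, by omega, h0 _, c, hkey _, by rw [hK, hK]; exact h⟩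
    · exact ⟨Q - 1, by omega, h0 _, c, hkey _, by rw [hK, hK]; omega⟩

/-- two terms in the corner whose indices differ by `Q + 1` -/
lemma double_case (hQ : 2 ≤ Q) {ω Y : ℕ} (e : Fin M → Fin Z → Lab Q)
    (he : Function.Surjective e) (hN : 8 * (Q + 2) ^ 2 * ω ≤ p)
    (hY : (2 * Q).factorial * Y ≤ ω) (a y : Fin (M + 1) → ZMod p) {i : ℕ}
    (hi : i + (Q + 1) ≤ 2 * Q) (h1 : Corn ω Y (a + i • y)) (h2 : Corn ω Y (a + (i + (Q + 1)) • y))
    (hb : Body ω Y e (a + Q • y)) : False := by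
  obtain ⟨g, hg⟩ : ∃ g, g = p / (Q + 1) := ⟨_, rfl⟩
  obtain ⟨hg1, hg2, hg3, hg4⟩ := gap_ineq (p := p) hg hQ hN
  obtain ⟨c, hc⟩ := he (fun _ => none)
  have hlab : ∀ n, lab e c n = none := by
    intro n
    unfold lab
    split_ifs
    · rw [hc]
    · rfl
  have h3 := h1.2 c
  have h4 := h2.2 c
  have h5 := hb.2 c
  rw [← hg] at h5
  obtain ⟨y1, hy1⟩ : ∃ y1, y1 = ((a + i • y) c.succ).val := ⟨_, rfl⟩
  obtain ⟨y2, hy2⟩ : ∃ y2, y2 = ((a + (i + (Q + 1)) • y) c.succ).val := ⟨_, rfl⟩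
  have e1 : (y1 : ZMod p) = a c.succ + (i : ZMod p) * y c.succ := by
    rw [hy1, ZMod.natCast_zmod_val, coord]
  have e2 : (y2 : ZMod p) = a c.succ + ((i + (Q + 1) : ℕ) : ZMod p) * y c.succ := by
    rw [hy2, ZMod.natCast_zmod_val, coord]
  rw [← hy1] at h3
  rw [← hy2] at h4
  obtain ⟨n, hn⟩ : ∃ n, n = (i + 1) * y1 + (Q - i) * y2 := ⟨_, rfl⟩
  have hn1 : n + (Q + 1) ≤ (Q + 1) * Y := by
    have h6 : (i + 1) * (y1 + 1) ≤ (i + 1) * Y := Nat.mul_le_mul_left _ h3
    have h7 : (Q - i) * (y2 + 1) ≤ (Q - i) * Y := Nat.mul_le_mul_left _ h4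
    have h8 : (i + 1) * (y1 + 1) + (Q - i) * (y2 + 1) = n + ((i + 1) + (Q - i)) := by
      rw [hn]; ring
    have h9 : (i + 1) * Y + (Q - i) * Y = ((i + 1) + (Q - i)) * Y := by ring
    have h10 : (i + 1) + (Q - i) = Q + 1 := by omega
    rw [h10] at h8 h9
    omega
  have hn2 : (Q + 1) * Y ≤ g := by
    have h6 : Q + 1 ≤ (2 * Q).factorial := by
      have := Nat.self_le_factorial (2 * Q)
      omega
    have h7 : (Q + 1) * Y ≤ (2 * Q).factorial * Y := Nat.mul_le_mul_right _ h6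
    omega
  have hkey : key ω Y e (a + Q • y) c = -(((Q + 1) * Y - n : ℕ) : ZMod p) := by
    unfold key
    rw [hlab]
    simp only [mul, off]
    rw [Nat.cast_sub (by omega), hn, coord, Nat.cast_add, Nat.cast_mul (i + 1), e1, Nat.cast_mul (Q - i),
      e2, Nat.cast_sub (by omega)]
    push_cast
    ring
  have h6 := neg_val (g := g) (by omega) (by omega) hg2 hkey
  omega

/-- one term in the corner -/
lemma single_case (hQ : 2 ≤ Q) {ω Y : ℕ} (hω : 1 ≤ ω) (e : Fin M → Fin Z → Lab Q)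
    (he : Function.Surjective e) (hZ : p / ω < Z) (hN : 8 * (Q + 2) ^ 2 * ω ≤ p)
    (hY : (2 * Q).factorial * Y ≤ ω) (a y : Fin (M + 1) → ZMod p) {i₁ : ℕ}
    (hi₁ : i₁ ≤ 2 * Q) (h1 : Corn ω Y (a + i₁ • y))
    (hP : ∀ i : ℕ, i < 2 * Q + 1 → Corn ω Y (a + i • y) ∨ Body ω Y e (a + i • y))
    (hsep : ∀ i i' : ℕ, i < i' → i' ≤ 2 * Q →
        ((a + i • y) 0).val + ω ≤ ((a + i' • y) 0).val ∨
        ((a + i' • y) 0).val + ω ≤ ((a + i • y) 0).val) : False := by
  classical
  obtain ⟨g, hg⟩ : ∃ g, g = p / (Q + 1) := ⟨_, rfl⟩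
  obtain ⟨hg1, hg2, hg3, hg4⟩ := gap_ineq (p := p) hg hQ hN
  have hsep' : ∀ i i' : ℕ, i ≠ i' → i ≤ 2 * Q → i' ≤ 2 * Q →
      ((a + i • y) 0).val + ω ≤ ((a + i' • y) 0).val ∨
        ((a + i' • y) 0).val + ω ≤ ((a + i • y) 0).val := by
    intro i i' hne hi hi'
    rcases lt_or_gt_of_ne hne with h | h
    · exact hsep i i' h hi'
    · exact (hsep i' i h hi).symm
  have hzone : ∀ i i' : ℕ, i ≤ 2 * Q → i' ≤ 2 * Q →
      ((a + i • y) 0).val / ω = ((a + i' • y) 0).val / ω → i = i' := by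
    intro i i' hi hi' hz
    by_contra hne
    rcases hsep' i i' hne hi hi' with h | h
    · have h2 := Nat.div_le_div_right (c := ω) h
      rw [Nat.add_div_right _ hω] at h2
      omega
    · have h2 := Nat.div_le_div_right (c := ω) h
      rw [Nat.add_div_right _ hω] at h2
      omega
  have hbody : ∀ i : ℕ, i ≤ 2 * Q → i ≠ i₁ → Body ω Y e (a + i • y) := by
    intro i hi hne
    rcases hP i (by omega) with h | h
    · exfalso
      have h2 := h.1
      have h3 := h1.1
      rcases hsep' i i₁ hne hi hi₁ with h4 | h4 <;> omega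
    · exact h
  obtain ⟨c, hc⟩ := he (fun z : Fin Z => if h : ∃ b : Fin (2 * Q + 1), (b : ℕ) ≠ i₁ ∧
    ((a + (b : ℕ) • y) 0).val / ω = z then some (⟨i₁, by omega⟩, h.choose) else none)
  have hlab : ∀ b : Fin (2 * Q + 1), (b : ℕ) ≠ i₁ →
      lab e c (((a + (b : ℕ) • y) 0).val / ω) = some (⟨i₁, by omega⟩, b) := by
    intro b hb
    have hlt : ((a + (b : ℕ) • y) 0).val / ω < Z := by
      refine lt_of_le_of_lt (Nat.div_le_div_right (ZMod.val_lt _).le) hZ
    have hex : ∃ b' : Fin (2 * Q + 1), (b' : ℕ) ≠ i₁ ∧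
      ((a + (b' : ℕ) • y) 0).val / ω = ((⟨((a + (b : ℕ) • y) 0).val / ω, hlt⟩ : Fin Z) : ℕ) :=
      ⟨b, hb, rfl⟩
    unfold lab
    rw [dif_pos hlt, hc]
    simp only
    rw [dif_pos hex]
    have h2 := hex.choose_spec
    have h3 : (hex.choose : ℕ) = b :=
      hzone _ _ (by have := hex.choose.2; omega) (by have := b.2; omega) h2.2
    have h4 : hex.choose = b := Fin.ext h3
    rw [h4]
  -- the position of `L y`
  obtain ⟨L, hL⟩ : ∃ L, L = (2 * Q).factorial := ⟨_, rfl⟩
  obtain ⟨E, hE⟩ : ∃ E, E = ((L : ZMod p) * y c.succ).val := ⟨_, rfl⟩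
  have hEp : E < p := by rw [hE]; exact ZMod.val_lt _
  have hEc : (E : ZMod p) = (L : ZMod p) * y c.succ := by rw [hE, ZMod.natCast_zmod_val]
  obtain ⟨r, hr⟩ : ∃ r, r = E * (Q + 2) / p := ⟨_, rfl⟩
  have hp0 : 0 < p := hpf.out.pos
  have hr1 : r * p ≤ E * (Q + 2) := by rw [hr]; exact Nat.div_mul_le_self _ _
  have hr2 : E * (Q + 2) < (r + 1) * p := by
    have h2 := Nat.lt_div_mul_add (a := E * (Q + 2)) hp0
    rw [← hr] at h2
    have h3 : (r + 1) * p = r * p + p := by ring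
    omega
  have hr3 : r < Q + 2 := by
    rw [hr]
    apply Nat.div_lt_of_lt_mul
    exact Nat.mul_lt_mul_of_pos_right hEp (by omega)
  obtain ⟨b, hb⟩ : ∃ b, b = if r < i₁ then r else r + 1 := ⟨_, rfl⟩
  have hb1 : b ≤ 2 * Q := by rw [hb]; split_ifs <;> omega
  have hb2 : b ≠ i₁ := by rw [hb]; split_ifs <;> omega
  have hb3 : (if b < i₁ then b else b - 1) = r := by
    rw [hb]
    by_cases h : r < i₁
    · rw [if_pos h, if_pos h]
    · rw [if_neg h, if_neg (by omega)]
      rfl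
  have hbd := (hbody b hb1 hb2).2 c
  have hlb := hlab ⟨b, by omega⟩ hb2
  simp only at hlb
  obtain ⟨μ, hμ⟩ : ∃ μ : ℤ, μ = mul Q (some ((⟨i₁, by omega⟩ : Fin (2 * Q + 1)),
    (⟨b, by omega⟩ : Fin (2 * Q + 1)))) := ⟨_, rfl⟩
  have hμ1 : μ * ((b : ℤ) - (i₁ : ℤ)) = L := by
    rw [hμ, hL]
    exact mul_diff (⟨i₁, by omega⟩ : Fin (2 * Q + 1)) (⟨b, by omega⟩ : Fin (2 * Q + 1))
      (fun h => hb2 (congrArg Fin.val h).symm)
  have hμ2 : |μ| ≤ L := by
    rw [hμ, hL]
    exact (mul_bound Q hQ _).2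
  obtain ⟨y1, hy1⟩ : ∃ y1, y1 = ((a + i₁ • y) c.succ).val := ⟨_, rfl⟩
  have e1 : (y1 : ZMod p) = a c.succ + (i₁ : ZMod p) * y c.succ := by
    rw [hy1, ZMod.natCast_zmod_val, coord]
  have hy1Y : y1 < Y := by rw [hy1]; exact h1.2 c
  have hμy : |μ * y1| ≤ ω := by
    rw [abs_mul, Nat.abs_cast]
    calc |μ| * (y1 : ℤ) ≤ L * Y := by
          apply mul_le_mul hμ2 (by exact_mod_cast hy1Y.le) (by positivity) (by positivity)
      _ ≤ ω := by rw [hL]; exact_mod_cast hY
  have hμy2 : |μ * y1| ≤ L * Y := by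
    rw [abs_mul, Nat.abs_cast]
    apply mul_le_mul hμ2 (by exact_mod_cast hy1Y.le) (by positivity) (by positivity)
  obtain ⟨o, ho⟩ : ∃ o, o = (r + 1) * p / (Q + 2) := ⟨_, rfl⟩
  have ho1 : E ≤ o := by
    rw [ho, Nat.le_div_iff_mul_le (by omega)]
    exact hr2.le
  have ho2 : o ≤ E + p / (Q + 2) := by
    have h2 : (r + 1) * p ≤ (Q + 2) * E + p := by
      have h3 : (r + 1) * p = r * p + p := by ring
      have h4 : (Q + 2) * E = E * (Q + 2) := by ring
      omega
    have h3 := Nat.div_le_div_right (c := Q + 2) h2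
    rw [Nat.mul_add_div (by omega)] at h3
    rw [ho]
    exact h3
  have hkey : key ω Y e (a + b • y) c = -((((o + 1 + L * Y : ℕ) : ℤ) - E - μ * y1).toNat : ZMod p) := by
    have hnn : (0 : ℤ) ≤ ((o + 1 + L * Y : ℕ) : ℤ) - E - μ * y1 := by
      have := (abs_le.1 hμy2).2
      push_cast
      have : (E : ℤ) ≤ o := by exact_mod_cast ho1
      linarith
    have h2 : (((((o + 1 + L * Y : ℕ) : ℤ) - E - μ * y1).toNat : ℕ) : ZMod p) =
        (((((o + 1 + L * Y : ℕ) : ℤ) - E - μ * y1) : ℤ) : ZMod p) := by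
      rw [← Int.cast_natCast, Int.toNat_of_nonneg hnn]
    rw [h2]
    unfold key
    rw [hlb, ← hμ]
    simp only [off]
    rw [hb3, ← ho, ← hL, coord]
    have h3 : ((μ : ℤ) : ZMod p) * ((b : ZMod p) - (i₁ : ZMod p)) = (L : ZMod p) := by
      have := congrArg (fun z : ℤ => (z : ZMod p)) hμ1
      push_cast at this
      exact this
    push_cast
    rw [e1, hEc, ← h3]
    ring
  have h6 : p - g ≤ (key ω Y e (a + b • y) c).val := by
    refine neg_val (g := g) (t := (((o + 1 + L * Y : ℕ) : ℤ) - E - μ * y1).toNat) ?_ ?_ hg2 hkey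
    · have := (abs_le.1 hμy2).2
      have h7 : (E : ℤ) ≤ o := by exact_mod_cast ho1
      have h8 : (1 : ℤ) ≤ ((o + 1 + L * Y : ℕ) : ℤ) - E - μ * y1 := by
        push_cast
        linarith
      omega
    · have h7 := (abs_le.1 hμy).1
      have h8 : (o : ℤ) ≤ E + (p / (Q + 2) : ℕ) := by exact_mod_cast ho2
      have h9 : ((L * Y : ℕ) : ℤ) ≤ ω := by rw [hL]; exact_mod_cast hY
      have h10 : (((p / (Q + 2) : ℕ) : ℤ)) + 3 * ω ≤ g := by exact_mod_cast hg1
      have h11 : (((o + 1 + L * Y : ℕ) : ℤ) - E - μ * y1) ≤ g := by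
        push_cast at h9 h8 h10 ⊢
        have : (1 : ℤ) ≤ ω := by exact_mod_cast hω
        linarith
      omega
  rw [← hg] at hbd
  omega

/-- The union of the corner and the body carries no balanced weight. -/
theorem not_balanced (hQ : 2 ≤ Q) {ω Y : ℕ} (hω : 1 ≤ ω) (e : Fin M → Fin Z → Lab Q)
    (he : Function.Surjective e) (hZ : p / ω < Z) (hN : 8 * (Q + 2) ^ 2 * ω ≤ p)
    (hY : (2 * Q).factorial * Y ≤ ω) (hf : (2 * Q).factorial < p)
    (S : Finset (Fin (M + 1) → ZMod p)) (hS : ∀ x ∈ S, Corn ω Y x ∨ Body ω Y e x) :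
    ¬ TH197.SymAP.Balanced (2 * Q + 1) S := by
  classical
  obtain ⟨g, hg⟩ : ∃ g, g = p / (Q + 1) := ⟨_, rfl⟩
  obtain ⟨hg1, hg2, hg3, hg4⟩ := gap_ineq (p := p) hg hQ hN
  have hYω : Y ≤ ω := le_trans (Nat.le_mul_of_pos_left _ (Nat.factorial_pos _)) hY
  have hω2 : 4 * ω < p := by
    have h1 : 8 * (Q + 2) ^ 2 * ω = 8 * ((Q + 2) ^ 2 * ω) := by ring
    have h2 : ω ≤ (Q + 2) ^ 2 * ω := Nat.le_mul_of_pos_left _ (by positivity)
    omega
  apply not_balanced_of_good (2 * Q + 1) Q (by omega) S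
  intro T hTS hT
  obtain ⟨x₀, hx₀, hmax⟩ := Finset.exists_max_image T (fun x => (x 0).val) hT
  obtain ⟨x, hx, hmin⟩ := Finset.exists_min_image (T.filter (fun x => (x 0).val = (x₀ 0).val))
    (fun x => toLex (K ω Y e x)) ⟨x₀, by rw [mem_filter]; exact ⟨hx₀, rfl⟩⟩
  rw [mem_filter] at hx
  refine ⟨x, hx.1, ?_⟩
  intro a y hy hi hxe
  have hP : ∀ i : ℕ, i < 2 * Q + 1 → Corn ω Y (a + i • y) ∨ Body ω Y e (a + i • y) :=
    fun i hi' => hS _ (hTS (hi i hi'))
  have hle : ∀ i : ℕ, i < 2 * Q + 1 → ((a + i • y) 0).val ≤ ((a + Q • y) 0).val := by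
    intro i hi'
    rw [hxe, hx.2]
    exact hmax _ (hi i hi')
  by_cases hy0 : y 0 = 0
  · obtain ⟨i, hi1, hi2, c, hc1, hc2⟩ := flat_case hQ e hN hf (by omega) a y hy hy0 hP
    have h1 : a + i • y ∈ T.filter (fun x => (x 0).val = (x₀ 0).val) := by
      rw [mem_filter]
      refine ⟨hi i hi1, ?_⟩
      rw [hi2, hxe, hx.2]
    have h2 := hmin _ h1
    have h3 : toLex (K ω Y e (a + i • y)) < toLex (K ω Y e x) := by
      rw [← hxe]
      exact ⟨c, hc1, hc2⟩
    exact absurd h3 (not_lt.2 h2)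
  · by_cases hu : g ≤ ((a + Q • y) 0).val
    · have hcorn : ∀ i : ℕ, i < 2 * Q + 1 → ((a + i • y) 0).val < g → Corn ω Y (a + i • y) := by
        intro i hi' h
        rcases hP i hi' with h1 | h1
        · exact h1
        · have := h1.1
          omega
      have H : Hyp Q ω g (a 0) (y 0) := by
        intro i hi'
        have h1 := hle i (by omega)
        have h2 := hP i (by omega)
        rw [coord, coord] at h1
        rcases h2 with h3 | h3
        · left
          have := h3.1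
          rw [coord] at this
          exact this
        · right
          have := h3.1
          rw [coord, ← hg] at this
          exact ⟨this, h1⟩
      have hbQ : Body ω Y e (a + Q • y) := by
        rcases hP Q (by omega) with h1 | h1
        · have := h1.1
          omega
        · exact h1
      rw [coord] at hu
      rcases sep H hu hg hQ hω hN hy0 with ⟨i, hi1, hi2, hi3⟩ | ⟨⟨i, hi1, hi2, hi3⟩, hs⟩
      · rw [← coord] at hi2 hi3
        exact double_case hQ e he hN hY a y hi1 (hcorn i (by omega) (by omega))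
          (hcorn (i + (Q + 1)) (by omega) (by omega)) hbQ
      · rw [← coord] at hi3
        refine single_case hQ hω e he hZ hN hY a y hi1 (hcorn i (by omega) (by omega)) hP ?_
        intro i i' hii' hi'
        rw [coord, coord]
        exact hs i i' hii' hi'
    · -- all terms are in the corner
      have hv : ∀ i : ℕ, (a + i • y) 0 = (((a + i • y) 0).val : ZMod p) := by
        intro i
        rw [ZMod.natCast_zmod_val]
      have hlt : ((a + Q • y) 0).val < 2 * ω := by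
        rcases hP Q (by omega) with h | h
        · exact h.1.2
        · have := h.1
          omega
      have h1 := hle (Q + 1) (by omega)
      have h2 := hle (Q - 1) (by omega)
      have hsum : ((a + (Q + 1) • y) 0).val + ((a + (Q - 1) • y) 0).val =
          2 * ((a + Q • y) 0).val := by
        have h4 : (((((a + (Q + 1) • y) 0).val + ((a + (Q - 1) • y) 0).val : ℕ)) : ZMod p)
            = ((2 * ((a + Q • y) 0).val : ℕ) : ZMod p) := by
          push_cast
          rw [← hv, ← hv, ← hv, coord, coord, coord, Nat.cast_sub (by omega)]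
          push_cast
          ring
        have h5 := congrArg ZMod.val h4
        rwa [ZMod.val_natCast_of_lt (by omega), ZMod.val_natCast_of_lt (by omega)] at h5
      have h3 : ((a + (Q + 1) • y) 0).val = ((a + Q • y) 0).val := by omega
      have h4 := ZMod.val_injective p h3
      rw [coord, coord] at h4
      push_cast at h4
      apply hy0
      linear_combination h4

end

end Pool.Agent.K6.H46.LAP
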