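import Pool.Agent.K6.H46.LAP.Count

/-!
# Body and one more point

For each prime `p > 2 Q + 1` a set of `(p - ⌊p / (Q + 1)⌋)^(M + 1) + 1` elements without balanced
weights for progressions of length `2 Q + 1`: the body and the origin.
-/

set_option autoImplicit false

namespace Pool.Agent.K6.H46.LAP.Small

open Finset

variable {p : ℕ} [hpf : Fact p.Prime] {Q M : ℕ}

/-- the normalised coordinates -/
def key (e : Fin M → ZMod p → (ZMod p)ˣ × ZMod p) (x : Fin (M + 1) → ZMod p) (c : Fin M) :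
    ZMod p :=
  ((e c (x 0)).1 : ZMod p) * x c.succ - (e c (x 0)).2

/-- the body -/
def Body (Q : ℕ) (e : Fin M → ZMod p → (ZMod p)ˣ × ZMod p) (x : Fin (M + 1) → ZMod p) : Prop :=
  p / (Q + 1) ≤ (x 0).val ∧ ∀ c, (key e x c).val < p - p / (Q + 1)

/-- progressions with constant first coordinate -/
lemma flat_case (hQ : 2 ≤ Q) (e : Fin M → ZMod p → (ZMod p)ˣ × ZMod p) (hp : 2 * Q + 1 < p)
    (a y : Fin (M + 1) → ZMod p) (hy : y ≠ 0) (hy0 : y 0 = 0)
    (hP : ∀ i : ℕ, i < 2 * Q + 1 → a + i • y = 0 ∨ Body Q e (a + i • y)) :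
    ∃ i : ℕ, i < 2 * Q + 1 ∧ (a + i • y) 0 = (a + Q • y) 0 ∧
      ∃ c, (∀ c' < c, (key e (a + i • y) c').val = (key e (a + Q • y) c').val) ∧
        (key e (a + i • y) c).val < (key e (a + Q • y) c).val := by
  classical
  obtain ⟨g, hg⟩ : ∃ g, g = p / (Q + 1) := ⟨_, rfl⟩
  have hg2 : g < p := by
    rw [hg]
    exact Nat.div_lt_self hpf.out.pos (by omega)
  have hg1 : 1 ≤ g := by
    rw [hg, Nat.le_div_iff_mul_le (by omega)]
    omega
  obtain ⟨c, hc, hcmin⟩ : ∃ c : Fin M, y c.succ ≠ 0 ∧ ∀ c' < c, y c'.succ = 0 := by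
    have hne : (univ.filter (fun c : Fin M => y c.succ ≠ 0)).Nonempty := by
      by_contra hcon
      apply hy
      funext i
      refine Fin.cases hy0 (fun j => ?_) i
      by_contra h
      exact hcon ⟨j, by rw [mem_filter]; exact ⟨mem_univ _, h⟩⟩
    obtain ⟨c, hc, hmin⟩ := Finset.exists_min_image _ id hne
    rw [mem_filter] at hc
    refine ⟨c, hc.2, fun c' hc' => ?_⟩
    by_contra h
    exact absurd (hmin c' (by simp [h])) (not_le.2 hc')
  have h0 : ∀ i : ℕ, (a + i • y) 0 = (a + Q • y) 0 := by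
    intro i
    rw [coord, coord, hy0, mul_zero, mul_zero]
  have hsame : ∀ i : ℕ, ∀ c' < c, (a + i • y) c'.succ = (a + Q • y) c'.succ := by
    intro i c' hc'
    rw [coord, coord, hcmin c' hc', mul_zero, mul_zero]
  have hkey : ∀ i : ℕ, ∀ c' < c, (key e (a + i • y) c').val = (key e (a + Q • y) c').val := by
    intro i c' hc'
    unfold key
    rw [h0 i, hsame i c' hc']
  have hb : g ≤ ((a + Q • y) 0).val := by
    by_contra hcon
    have hz : ∀ i : ℕ, i < 2 * Q + 1 → a + i • y = 0 := by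
      intro i hi
      rcases hP i hi with h | h
      · exact h
      · exfalso
        have h1 := h.1
        rw [h0 i] at h1
        omega
    have h1 := hz 0 (by omega)
    have h2 := hz 1 (by omega)
    apply hy
    rw [zero_smul, add_zero] at h1
    rw [one_smul, h1, zero_add] at h2
    exact h2
  have hbody : ∀ i : ℕ, i < 2 * Q + 1 → (key e (a + i • y) c).val < p - g := by
    intro i hi
    rcases hP i hi with h | h
    · exfalso
      have h1 := h0 i
      rw [h, Pi.zero_apply] at h1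
      rw [← h1, ZMod.val_zero] at hb
      omega
    · rw [hg]
      exact h.2 c
  obtain ⟨μ, hμ⟩ : ∃ μ : (ZMod p)ˣ, μ = (e c ((a + Q • y) 0)).1 := ⟨_, rfl⟩
  have hμ0 : (μ : ZMod p) ≠ 0 := μ.ne_zero
  have hdiff : ∀ i : ℕ, key e (a + i • y) c = key e (a + Q • y) c +
      μ * ((i : ZMod p) - Q) * y c.succ := by
    intro i
    unfold key
    rw [h0 i, ← hμ, coord a y i c.succ, coord a y Q c.succ]
    ring
  obtain ⟨j, hj1, hjQ, d, hd1, hd2, hjd⟩ := TH197.SymAP.dirichlet (p := p) (Q := Q) (by omega)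
    (by omega) (mul_ne_zero hμ0 hc)
  rw [← hg] at hd2
  obtain ⟨i, hi, hid⟩ : ∃ i : ℕ, i < 2 * Q + 1 ∧
      key e (a + i • y) c = key e (a + Q • y) c - (d : ZMod p) := by
    rcases hjd with h | h
    · refine ⟨Q - j, by omega, ?_⟩
      rw [hdiff, Nat.cast_sub hjQ]
      linear_combination -h
    · refine ⟨Q + j, by omega, ?_⟩
      rw [hdiff]
      push_cast
      linear_combination h
  refine ⟨i, hi, h0 i, c, hkey i, ?_⟩
  have h1 := hbody i hi
  have h2 : key e (a + Q • y) c = ((key e (a + Q • y) c).val : ZMod p) := by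
    rw [ZMod.natCast_zmod_val]
  by_cases h3 : d ≤ (key e (a + Q • y) c).val
  · have h4 : (key e (a + i • y) c).val = (key e (a + Q • y) c).val - d := by
      rw [hid]
      conv_lhs => rw [h2]
      rw [← Nat.cast_sub h3, ZMod.val_natCast_of_lt]
      have := ZMod.val_lt (key e (a + Q • y) c)
      omega
    omega
  · exfalso
    have h4 : key e (a + i • y) c =
        -((d - (key e (a + Q • y) c).val : ℕ) : ZMod p) := by
      rw [hid, Nat.cast_sub (by omega), ← h2]
      ring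
    have h5 := neg_val (g := g) (by omega) (by omega) hg2 h4
    omega

open Classical in
/-- a unit -/
noncomputable def unit (t : ZMod p) : (ZMod p)ˣ :=
  if h : t = 0 then 1 else Units.mk0 t h

lemma unit_val {t : ZMod p} (h : t ≠ 0) : ((unit t : (ZMod p)ˣ) : ZMod p) = t := by
  unfold unit
  rw [dif_neg h, Units.val_mk0]

/-- one term is the origin -/
lemma origin_case (hQ : 2 ≤ Q) (e : Fin M → ZMod p → (ZMod p)ˣ × ZMod p)
    (he : Function.Surjective e) (hp : 2 * Q + 1 < p)
    (a y : Fin (M + 1) → ZMod p) (hy0 : y 0 ≠ 0) {i₁ : ℕ} (hi₁ : i₁ ≤ 2 * Q)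
    (h1 : a + i₁ • y = 0)
    (hP : ∀ i : ℕ, i < 2 * Q + 1 → a + i • y = 0 ∨ Body Q e (a + i • y)) : False := by
  classical
  obtain ⟨g, hg⟩ : ∃ g, g = p / (Q + 1) := ⟨_, rfl⟩
  have hg2 : g < p := by
    rw [hg]
    exact Nat.div_lt_self hpf.out.pos (by omega)
  have hgQ2 : p < g * (Q + 1) + (Q + 1) := by
    rw [hg]
    exact Nat.lt_div_mul_add (by omega)
  have hg1 : 2 ≤ g := by
    rw [hg, Nat.le_div_iff_mul_le (by omega)]
    omega
  have hcov : p ≤ g * (2 * Q) := by
    obtain ⟨Q', rfl⟩ : ∃ Q', Q = Q' + 2 := ⟨Q - 2, by omega⟩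
    have e1 : g * (2 * (Q' + 2)) = g * (Q' + 2 + 1) + g * (Q' + 1) := by ring
    have e2 : 2 * (Q' + 1) ≤ g * (Q' + 1) := Nat.mul_le_mul_right _ hg1
    omega
  have hcast : ∀ n : ℕ, 1 ≤ n → n ≤ 2 * Q → (n : ZMod p) ≠ 0 := by
    intro n hn1 hn2 h
    rw [ZMod.natCast_eq_zero_iff] at h
    have := Nat.le_of_dvd hn1 h
    omega
  have hdiff : ∀ b b' : ℕ, b ≤ 2 * Q → b' ≤ 2 * Q → b ≠ b' → (b : ZMod p) - (b' : ZMod p) ≠ 0 := by
    intro b b' hb hb' hne
    rcases lt_or_gt_of_ne hne with h | h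
    · have h2 := hcast (b' - b) (by omega) (by omega)
      rw [Nat.cast_sub h.le] at h2
      intro h3
      apply h2
      linear_combination -h3
    · have h2 := hcast (b - b') (by omega) (by omega)
      rw [Nat.cast_sub h.le] at h2
      exact h2
  have ha : ∀ c, a c = -((i₁ : ZMod p) * y c) := by
    intro c
    have h2 := congrFun h1 c
    rw [coord, Pi.zero_apply] at h2
    linear_combination h2
  have hterm : ∀ (b : ℕ) (c : Fin (M + 1)), (a + b • y) c = ((b : ZMod p) - i₁) * y c := by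
    intro b c
    rw [coord, ha]
    ring
  have hinj : ∀ b b' : ℕ, b ≤ 2 * Q → b' ≤ 2 * Q → (a + b • y) 0 = (a + b' • y) 0 → b = b' := by
    intro b b' hb hb' h
    by_contra hne
    apply hdiff b b' hb hb' hne
    rw [hterm, hterm] at h
    have h2 := mul_right_cancel₀ hy0 h
    linear_combination h2
  have hbody : ∀ b : ℕ, b ≤ 2 * Q → b ≠ i₁ → Body Q e (a + b • y) := by
    intro b hb hne
    rcases hP b (by omega) with h | h
    · exfalso
      apply hne
      apply hinj b i₁ hb hi₁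
      rw [h, h1]
    · exact h
  obtain ⟨c, hc⟩ := he (fun z : ZMod p => if h : ∃ b : Fin (2 * Q + 1), (b : ℕ) ≠ i₁ ∧
    (a + (b : ℕ) • y) 0 = z then
      (unit (((h.choose : ℕ) : ZMod p) - (i₁ : ZMod p))⁻¹,
        ((((if (h.choose : ℕ) < i₁ then (h.choose : ℕ) else h.choose - 1) + 1) * g : ℕ) : ZMod p))
      else (1, 0))
  have hlab : ∀ b : ℕ, b ≤ 2 * Q → b ≠ i₁ → e c ((a + b • y) 0) =
      (unit ((b : ZMod p) - (i₁ : ZMod p))⁻¹,
        ((((if b < i₁ then b else b - 1) + 1) * g : ℕ) : ZMod p)) := by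
    intro b hb hne
    have hex : ∃ b' : Fin (2 * Q + 1), (b' : ℕ) ≠ i₁ ∧
      (a + (b' : ℕ) • y) 0 = (a + b • y) 0 := ⟨⟨b, by omega⟩, hne, rfl⟩
    rw [hc]
    simp only
    rw [dif_pos hex]
    have h3 : (hex.choose : ℕ) = b :=
      hinj _ _ (by have := hex.choose.2; omega) hb hex.choose_spec.2
    rw [h3]
  obtain ⟨E, hE⟩ : ∃ E, E = (y c.succ).val := ⟨_, rfl⟩
  have hEp : E < p := by rw [hE]; exact ZMod.val_lt _
  have hEc : (E : ZMod p) = y c.succ := by rw [hE, ZMod.natCast_zmod_val]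
  obtain ⟨r, hr⟩ : ∃ r, r = E / g := ⟨_, rfl⟩
  have hr1 : r * g ≤ E := by rw [hr]; exact Nat.div_mul_le_self _ _
  have hr2 : E < (r + 1) * g := by
    have h2 := Nat.lt_div_mul_add (a := E) (b := g) (by omega)
    rw [← hr] at h2
    have h3 : (r + 1) * g = r * g + g := by ring
    omega
  have hr3 : r < 2 * Q := by
    rw [hr]
    apply Nat.div_lt_of_lt_mul
    omega
  obtain ⟨b, hb⟩ : ∃ b, b = if r < i₁ then r else r + 1 := ⟨_, rfl⟩
  have hb1 : b ≤ 2 * Q := by rw [hb]; split_ifs <;> omega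
  have hb2 : b ≠ i₁ := by rw [hb]; split_ifs <;> omega
  have hb3 : (if b < i₁ then b else b - 1) = r := by
    rw [hb]
    by_cases h : r < i₁
    · rw [if_pos h, if_pos h]
    · rw [if_neg h, if_neg (by omega)]
      rfl
  have hkey : key e (a + b • y) c = -(((r + 1) * g - E : ℕ) : ZMod p) := by
    unfold key
    rw [hlab b hb1 hb2]
    simp only
    have h2 : (b : ZMod p) - i₁ ≠ 0 := hdiff b i₁ hb1 hi₁ hb2
    rw [unit_val (inv_ne_zero h2), hb3, hterm, inv_mul_cancel_left₀ h2, Nat.cast_sub hr2.le, hEc]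
    ring
  have h6 := neg_val (g := g) (by omega) (by
    have h3 : (r + 1) * g = r * g + g := by ring
    omega) hg2 hkey
  have h7 := (hbody b hb1 hb2).2 c
  rw [← hg] at h7
  omega

/-- The union of the body and the origin carries no balanced weight. -/
theorem not_balanced (hQ : 2 ≤ Q) (e : Fin M → ZMod p → (ZMod p)ˣ × ZMod p)
    (he : Function.Surjective e) (hp : 2 * Q + 1 < p)
    (S : Finset (Fin (M + 1) → ZMod p)) (hS : ∀ x ∈ S, x = 0 ∨ Body Q e x) :
    ¬ TH197.SymAP.Balanced (2 * Q + 1) S := by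
  classical
  obtain ⟨g, hg⟩ : ∃ g, g = p / (Q + 1) := ⟨_, rfl⟩
  have hg2 : 2 * g ≤ p := by
    have h1 : g * (Q + 1) ≤ p := by rw [hg]; exact Nat.div_mul_le_self _ _
    have h2 : g * 2 ≤ g * (Q + 1) := Nat.mul_le_mul_left g (by omega)
    omega
  have hg1 : 1 ≤ g := by
    rw [hg, Nat.le_div_iff_mul_le (by omega)]
    omega
  apply not_balanced_of_good (2 * Q + 1) Q (by omega) S
  intro T hTS hT
  obtain ⟨x₀, hx₀, hmax⟩ := Finset.exists_max_image T (fun x => (x 0).val) hT
  obtain ⟨x, hx, hmin⟩ := Finset.exists_min_image (T.filter (fun x => (x 0).val = (x₀ 0).val))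
    (fun x => toLex (fun c => (key e x c).val)) ⟨x₀, by rw [mem_filter]; exact ⟨hx₀, rfl⟩⟩
  rw [mem_filter] at hx
  refine ⟨x, hx.1, ?_⟩
  intro a y hy hi hxe
  have hP : ∀ i : ℕ, i < 2 * Q + 1 → a + i • y = 0 ∨ Body Q e (a + i • y) :=
    fun i hi' => hS _ (hTS (hi i hi'))
  have hle : ∀ i : ℕ, i < 2 * Q + 1 → ((a + i • y) 0).val ≤ ((a + Q • y) 0).val := by
    intro i hi'
    rw [hxe, hx.2]
    exact hmax _ (hi i hi')
  by_cases hy0 : y 0 = 0
  · obtain ⟨i, hi1, hi2, c, hc1, hc2⟩ := flat_case hQ e hp a y hy hy0 hP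
    have h1 : a + i • y ∈ T.filter (fun x => (x 0).val = (x₀ 0).val) := by
      rw [mem_filter]
      refine ⟨hi i hi1, ?_⟩
      rw [hi2, hxe, hx.2]
    have h2 := hmin _ h1
    have h3 : toLex (fun c => (key e (a + i • y) c).val) < toLex (fun c => (key e x c).val) := by
      rw [← hxe]
      exact ⟨c, hc1, hc2⟩
    exact absurd h3 (not_lt.2 h2)
  · obtain ⟨u, hu⟩ : ∃ u, u = ((a + Q • y) 0).val := ⟨_, rfl⟩
    have hup : u < p := by rw [hu]; exact ZMod.val_lt _
    have hcast : (u : ZMod p) = a 0 + (Q : ZMod p) * y 0 := by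
      rw [hu, ZMod.natCast_zmod_val, coord]
    obtain ⟨j, hj1, hjQ, d, hd1, hd2, hjd⟩ := TH197.SymAP.dirichlet (p := p) (Q := Q) (by omega)
      (by omega) hy0
    rw [← hg] at hd2
    obtain ⟨i, hi1, hid⟩ : ∃ i : ℕ, i < 2 * Q + 1 ∧
        (a + i • y) 0 = ((u + d : ℕ) : ZMod p) := by
      rcases hjd with h | h
      · refine ⟨Q + j, by omega, ?_⟩
        rw [coord]
        push_cast
        rw [hcast, ← h]
        ring
      · refine ⟨Q - j, by omega, ?_⟩
        rw [coord, Nat.cast_sub hjQ]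
        push_cast
        rw [hcast]
        linear_combination -h
    have h2 := val_sum hup (show d < p by omega)
    rw [← hid] at h2
    have h3 := hle i hi1
    rw [← hu] at h3
    have h4 : ((a + i • y) 0).val < g := by
      split_ifs at h2 with h5
      · omega
      · omega
    refine origin_case hQ e he hp a y hy0 (i₁ := i) (by omega) ?_ hP
    rcases hP i hi1 with h | h
    · exact h
    · have := h.1
      omega

/-- normalisation -/
def norm (e : Fin M → ZMod p → (ZMod p)ˣ × ZMod p) (x : Fin (M + 1) → ZMod p) :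
    Fin (M + 1) → ZMod p :=
  Fin.cons (x 0) (key e x)

lemma norm_bij (e : Fin M → ZMod p → (ZMod p)ˣ × ZMod p) :
    Function.Bijective (norm (p := p) e) := by
  apply Function.Injective.bijective_of_finite
  intro x x' h
  have h0 : x 0 = x' 0 := by
    have := congrFun h 0
    simpa [norm] using this
  funext i
  refine Fin.cases h0 (fun c => ?_) i
  have h1 := congrFun h c.succ
  simp only [norm, Fin.cons_succ, key] at h1
  rw [h0] at h1
  apply mul_left_cancel₀ (e c (x' 0)).1.ne_zero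
  linear_combination h1

open Classical in
/-- the number of elements of the set -/
theorem card_set (hQ : 2 ≤ Q) (e : Fin M → ZMod p → (ZMod p)ˣ × ZMod p) (hp : 2 * Q + 1 < p) :
    (univ.filter (fun x : Fin (M + 1) → ZMod p => x = 0 ∨ Body Q e x)).card =
      1 + (p - p / (Q + 1)) ^ (M + 1) := by
  obtain ⟨g, hg⟩ : ∃ g, g = p / (Q + 1) := ⟨_, rfl⟩
  have hg1 : 1 ≤ g := by
    rw [hg, Nat.le_div_iff_mul_le (by omega)]
    omega
  rw [Finset.filter_or, Finset.card_union_of_disjoint]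
  · congr 1
    · rw [Finset.filter_eq', if_pos (mem_univ _), card_singleton]
    · have h1 := card_box (p := p) (M := M) (lo := g) (hi := p) (m := p - g) le_rfl (by omega)
      rw [← hg, pow_succ, mul_comm, ← h1]
      apply Finset.card_bij (fun x _ => norm e x)
      · intro x hx
        rw [mem_filter] at hx ⊢
        refine ⟨mem_univ _, ⟨?_, ZMod.val_lt _⟩, ?_⟩
        · simp only [norm, Fin.cons_zero]
          rw [hg]
          exact hx.2.1
        · intro c
          simp only [norm, Fin.cons_succ]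
          rw [hg]
          exact hx.2.2 c
      · intro x _ x' _ h
        exact (norm_bij e).1 h
      · intro z hz
        obtain ⟨x, hx⟩ := (norm_bij (p := p) e).2 z
        refine ⟨x, ?_, hx⟩
        rw [mem_filter] at hz ⊢
        rw [← hx] at hz
        simp only [norm, Fin.cons_zero, Fin.cons_succ] at hz
        rw [hg] at hz
        exact ⟨mem_univ _, hz.2.1.1, hz.2.2⟩
  · rw [Finset.disjoint_left]
    intro x hx hx'
    rw [mem_filter] at hx hx'
    have h2 := hx'.2.1
    rw [hx.2, Pi.zero_apply, ZMod.val_zero] at h2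
    omega

/-- For each prime `p > 2 Q + 1`, `Q ≥ 2`, there are a dimension `d ≥ 1` and a set of more than
`(p - ⌊p / (Q + 1)⌋)^d` elements of `F_p^d` without balanced weights. -/
theorem exists_set (p Q : ℕ) [Fact p.Prime] (hQ : 2 ≤ Q) (hp : 2 * Q + 1 < p) :
    ∃ (M : ℕ) (S : Finset (Fin (M + 1) → ZMod p)), ¬ TH197.SymAP.Balanced (2 * Q + 1) S ∧
      (p - p / (Q + 1)) ^ (M + 1) < S.card := by
  classical
  obtain ⟨M, hM⟩ : ∃ M, M = Fintype.card (ZMod p → (ZMod p)ˣ × ZMod p) := ⟨_, rfl⟩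
  obtain ⟨e, he⟩ : ∃ e : Fin M → (ZMod p → (ZMod p)ˣ × ZMod p), Function.Surjective e := by
    rw [hM]
    exact ⟨(Fintype.equivFin _).symm, (Fintype.equivFin _).symm.surjective⟩
  refine ⟨M, univ.filter (fun x => x = 0 ∨ Body Q e x), ?_, ?_⟩
  · exact not_balanced hQ e he hp _ (fun x hx => (mem_filter.1 hx).2)
  · rw [card_set hQ e hp]
    omega

end Pool.Agent.K6.H46.LAP.Small
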